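import Mathlib

set_option autoImplicit false

namespace Pool.Agent.P8H19.GP

open SimpleGraph

variable {V : Type*}

/-- no 4-cycle as a subgraph -/
def C4F (G : SimpleGraph V) : Prop :=
  ∀ a b c d : V, a ≠ c → b ≠ d → G.Adj a b → G.Adj b c → G.Adj c d → G.Adj d a → False

/-- induced path as a list -/
def IP (G : SimpleGraph V) : List V → Prop
  | [] => True
  | [_] => True
  | a :: b :: l => G.Adj a b ∧ (∀ c ∈ l, ¬ G.Adj a c ∧ a ≠ c) ∧ IP G (b :: l)

inductive Geo (G : SimpleGraph V) (u : V) : ℕ → V → List V → Prop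
  | zero : Geo G u 0 u [u]
  | succ {n : ℕ} {v w : V} {P : List V} : Geo G u n v P → G.Adj w v → G.dist u w = n + 1 →
      Geo G u (n + 1) w (w :: P)

variable {G : SimpleGraph V} {u : V}

lemma adj_dist (hG : G.Connected) {a b : V} (u : V) (h : G.Adj a b) :
    G.dist u a ≤ G.dist u b + 1 := by
  have h1 := hG.dist_triangle (u := u) (v := b) (w := a)
  have h2 : G.dist b a = 1 := SimpleGraph.dist_eq_one_iff_adj.2 h.symm
  omega

lemma geo_head {n : ℕ} {v : V} {P : List V} (h : Geo G u n v P) : ∃ Q, P = v :: Q := by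
  cases h with
  | zero => exact ⟨[], rfl⟩
  | succ _ _ _ => exact ⟨_, rfl⟩

lemma geo_dist {n : ℕ} {v : V} {P : List V} (h : Geo G u n v P) : G.dist u v = n := by
  cases h with
  | zero => simp
  | succ _ _ h => exact h

lemma geo_len {n : ℕ} {v : V} {P : List V} (h : Geo G u n v P) : P.length = n + 1 := by
  induction h with
  | zero => rfl
  | succ _ _ _ ih => simp [ih]

lemma geo_mem {n : ℕ} {v : V} {P : List V} (h : Geo G u n v P) :
    ∀ y ∈ P, G.dist u y ≤ n ∧ (G.dist u y = n → y = v) := by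
  induction h with
  | zero => intro y hy; simp at hy; subst hy; simp
  | @succ n v w P h1 h2 h3 ih =>
    intro y hy
    rcases List.mem_cons.1 hy with rfl | hy
    · exact ⟨h3.le, fun _ => rfl⟩
    · have := (ih y hy).1
      exact ⟨by omega, fun h => by omega⟩

lemma geo_tail_lt {n : ℕ} {v : V} {Q : List V} (h : Geo G u n v (v :: Q)) :
    ∀ y ∈ Q, G.dist u y < n := by
  cases h with
  | zero => intro y hy; simp at hy
  | succ h1 h2 h3 =>
    intro y hy
    have := (geo_mem h1 y hy).1
    omega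

lemma geo_inj {n : ℕ} {v : V} {P : List V} (h : Geo G u n v P) :
    ∀ y ∈ P, ∀ z ∈ P, G.dist u y = G.dist u z → y = z := by
  induction h with
  | zero => intro y hy z hz _; simp at hy hz; rw [hy, hz]
  | @succ n v w P h1 h2 h3 ih =>
    intro y hy z hz h
    rcases List.mem_cons.1 hy with rfl | hy'
    · rcases List.mem_cons.1 hz with rfl | hz'
      · rfl
      · have := (geo_mem h1 z hz').1
        omega
    · rcases List.mem_cons.1 hz with rfl | hz'
      · have := (geo_mem h1 y hy').1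
        omega
      · exact ih y hy' z hz' h

lemma geo_adj {m : ℕ} {p : V} {R : List V} (h : Geo G u (m + 1) p R) {y : V} (hy : y ∈ R)
    (hd : G.dist u y = m) : G.Adj p y := by
  cases h with
  | @succ _ v _ P h1 h2 h3 =>
    rcases List.mem_cons.1 hy with rfl | hy
    · omega
    · rw [(geo_mem h1 y hy).2 hd]; exact h2

lemma geo_exists (hG : G.Connected) (u : V) : ∀ (n : ℕ) (v : V), G.dist u v = n →
    ∃ P, Geo G u n v P := by
  intro n
  induction n with
  | zero =>
    intro v hv
    have : u = v := (hG.dist_eq_zero_iff).1 hv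
    subst this
    exact ⟨_, Geo.zero⟩
  | succ n ih =>
    intro v hv
    obtain ⟨p, hp⟩ := hG.exists_walk_length_eq_dist v u
    have hl : p.length = n + 1 := by rw [hp, SimpleGraph.dist_comm, hv]
    cases p with
    | nil => simp at hl
    | @cons _ w _ h q =>
      have hq : q.length = n := by simpa using hl
      have h1 : G.dist w u ≤ n := hq ▸ SimpleGraph.dist_le q
      have h2 := adj_dist hG u h
      rw [SimpleGraph.dist_comm] at h1
      have h3 : G.dist u w = n := by omega
      obtain ⟨P, hP⟩ := ih w h3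
      exact ⟨_, Geo.succ hP h hv⟩

lemma geo_IP (hG : G.Connected) {n : ℕ} {v : V} {P : List V} (h : Geo G u n v P) : IP G P := by
  induction h with
  | zero => trivial
  | @succ n v w P h1 h2 h3 ih =>
    obtain ⟨Q, rfl⟩ := geo_head h1
    refine ⟨h2, ?_, ih⟩
    intro c hc
    have hlt := geo_tail_lt h1 c hc
    refine ⟨fun h => ?_, fun h => ?_⟩
    · have := adj_dist hG u h
      omega
    · subst h; omega

/-- extension vertices -/
lemma ext (hG : G.Connected) (hC : C4F G) {m : ℕ} {p v w : V} {R : List V}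
    (hR : Geo G u m p R) (hvp : G.Adj v p) (hv : G.dist u v = m + 1) (hvw : G.Adj v w)
    (hwp : w ≠ p) (hwp' : ¬ G.Adj w p) : ∀ c ∈ R, ¬ G.Adj w c ∧ w ≠ c := by
  intro c hc
  have hcm := geo_mem hR c hc
  refine ⟨fun h => ?_, fun h => ?_⟩
  · have h1 := adj_dist hG u hvw
    have h2 := adj_dist hG u h
    rcases Nat.lt_or_ge (G.dist u c) m with hlt | hge
    · obtain ⟨k, rfl⟩ : ∃ k, m = k + 1 := ⟨m - 1, by omega⟩
      have hk : G.dist u c = k := by omega
      have hpc := geo_adj hR hc hk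
      refine hC v w c p (fun e => ?_) hwp hvw h hpc.symm hvp.symm
      subst e; omega
    · have := hcm.2 (le_antisymm hcm.1 hge)
      subst this
      exact hwp' h
  · subst h
    have h1 := adj_dist hG u hvw
    have := hcm.2 (by omega)
    exact hwp this

lemma ip2 (hG : G.Connected) (hC : C4F G) {m : ℕ} {p v w : V} {R : List V}
    (hR : Geo G u m p R) (hvp : G.Adj v p) (hv : G.dist u v = m + 1) (hvw : G.Adj v w)
    (hwp : w ≠ p) (hwp' : ¬ G.Adj w p) : IP G (w :: v :: R) ∧ (w :: v :: R).length = m + 3 := by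
  refine ⟨⟨hvw.symm, ext hG hC hR hvp hv hvw hwp hwp', geo_IP hG (Geo.succ hR hvp hv)⟩, ?_⟩
  simp [geo_len hR]

def NoLong (G : SimpleGraph V) (k : ℕ) : Prop := ∀ L : List V, IP G L → L.length < k

lemma ext2 (hG : G.Connected) (hC : C4F G) {m r : ℕ} {p v w x : V} {R : List V}
    (hN : NoLong G (r + 3)) (hr : r ≤ m + 1)
    (hR : Geo G u m p R) (hvp : G.Adj v p) (hv : G.dist u v = m + 1) (hvw : G.Adj v w)
    (hwp : w ≠ p) (hwp' : ¬ G.Adj w p) (hwx : G.Adj w x) (hxv : x ≠ v) (hxv' : ¬ G.Adj x v) :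
    ∃ c ∈ R, G.Adj x c ∧ (G.dist u c + 1 = m ∨ G.dist u c + 2 = m) := by
  by_contra hno
  push Not at hno
  have he := ext hG hC hR hvp hv hvw hwp hwp'
  obtain ⟨h2, h2l⟩ := ip2 hG hC hR hvp hv hvw hwp hwp'
  have : IP G (x :: w :: v :: R) := by
    refine ⟨hwx.symm, ?_, h2⟩
    intro c hc
    rcases List.mem_cons.1 hc with rfl | hc
    · exact ⟨hxv', hxv⟩
    · refine ⟨fun h => ?_, fun h => ?_⟩
      · have h3 := hno c hc h
        have hcm := geo_mem hR c hc
        have a1 := adj_dist hG u hvw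
        have a2 := adj_dist hG u hwx
        have a3 := adj_dist hG u h
        have hcp : c = p := hcm.2 (by omega)
        subst hcp
        exact hC x w v c hxv hwp hwx.symm hvw.symm hvp h.symm
      · subst h
        exact (he x hc).1 hwx
  have := hN _ this
  simp only [List.length_cons] at this h2l
  omega

lemma ext3 (hG : G.Connected) (hC : C4F G) {m r : ℕ} {p v w w' x : V} {R : List V}
    (hN : NoLong G (r + 3)) (hr : r ≤ m + 1)
    (hR : Geo G u m p R) (hvp : G.Adj v p) (hv : G.dist u v = m + 1) (hvw : G.Adj v w)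
    (hwp : w ≠ p) (hwp' : ¬ G.Adj w p) (hvw' : G.Adj v w') (hw'p : w' ≠ p) (hw'p' : ¬ G.Adj w' p)
    (hne : w' ≠ w) (hna : ¬ G.Adj w' w)
    (hwx : G.Adj w x) (hxv : x ≠ v) (hxv' : ¬ G.Adj x v) :
    ∃ c ∈ R, G.Adj x c ∧ G.dist u c + 2 = m := by
  obtain ⟨c, hc, hxc, h | h⟩ := ext2 hG hC hN hr hR hvp hv hvw hwp hwp' hwx hxv hxv'
  swap
  · exact ⟨c, hc, hxc, h⟩
  by_contra hno
  push Not at hno
  have he := ext hG hC hR hvp hv hvw hwp hwp'
  have he' := ext hG hC hR hvp hv hvw' hw'p hw'p'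
  obtain ⟨k, rfl⟩ : ∃ k, m = k + 1 := ⟨m - 1, by omega⟩
  have hk : G.dist u c = k := by omega
  cases hR with
  | @succ _ c' _ R' h1 h2 h3 =>
    have hcR' : c ∈ R' := by
      rcases List.mem_cons.1 hc with rfl | hc
      · omega
      · exact hc
    have hcc : c = c' := (geo_mem h1 c hcR').2 hk
    subst hcc
    obtain ⟨Q, rfl⟩ := geo_head h1
    have hlt := geo_tail_lt h1
    have hL : IP G (w' :: v :: w :: x :: c :: Q) := by
      refine ⟨hvw'.symm, ?_, hvw, ?_, hwx, ?_, hxc, ?_, geo_IP hG h1⟩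
      · intro d hd
        rcases List.mem_cons.1 hd with rfl | hd
        · exact ⟨hna, hne⟩
        rcases List.mem_cons.1 hd with rfl | hd
        · refine ⟨fun h => ?_, fun h => ?_⟩
          · exact hC w' d w v hne hxv h hwx.symm hvw.symm hvw'
          · subst h; exact hxv' hvw'.symm
        · exact he' d (List.mem_cons_of_mem _ hd)
      · intro d hd
        rcases List.mem_cons.1 hd with rfl | hd
        · exact ⟨fun h => hxv' h.symm, hxv.symm⟩
        · have := (geo_mem h1 d hd).1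
          refine ⟨fun h => ?_, fun h => ?_⟩
          · have := adj_dist hG u h
            omega
          · subst h; omega
      · intro d hd
        exact he d (List.mem_cons_of_mem _ hd)
      · intro d hd
        have hd1 := hlt d hd
        have hdR : d ∈ p :: c :: Q := by simp [hd]
        refine ⟨fun h => ?_, fun h => ?_⟩
        · have a1 := adj_dist hG u hvw
          have a2 := adj_dist hG u hwx
          have a3 := adj_dist hG u h
          exact hno d hdR h (by omega)
        · subst h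
          exact (he x hdR).1 hwx
    have := hN _ hL
    have hlen := geo_len h1
    simp only [List.length_cons] at this hlen
    omega

/-- at most one neighbour of `w` outside the closed neighbourhood of `v` -/
lemma f4 (hG : G.Connected) (hC : C4F G) {m r : ℕ} {p v w w' x y : V} {R : List V}
    (hN : NoLong G (r + 3)) (hr : r ≤ m + 1)
    (hR : Geo G u m p R) (hvp : G.Adj v p) (hv : G.dist u v = m + 1) (hvw : G.Adj v w)
    (hwp : w ≠ p) (hwp' : ¬ G.Adj w p) (hvw' : G.Adj v w') (hw'p : w' ≠ p) (hw'p' : ¬ G.Adj w' p)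
    (hne : w' ≠ w) (hna : ¬ G.Adj w' w)
    (hwx : G.Adj w x) (hxv : x ≠ v) (hxv' : ¬ G.Adj x v)
    (hwy : G.Adj w y) (hyv : y ≠ v) (hyv' : ¬ G.Adj y v) : x = y := by
  by_contra hxy
  obtain ⟨c, hc, hxc, h1⟩ := ext3 hG hC hN hr hR hvp hv hvw hwp hwp' hvw' hw'p hw'p' hne hna
    hwx hxv hxv'
  obtain ⟨d, hd, hyd, h2⟩ := ext3 hG hC hN hr hR hvp hv hvw hwp hwp' hvw' hw'p hw'p' hne hna
    hwy hyv hyv'
  have hcd : c = d := geo_inj hR c hc d hd (by omega)
  subst hcd
  have he := ext hG hC hR hvp hv hvw hwp hwp' c hc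
  exact hC w x c y he.2 hxy hwx hxc hyd.symm hwy.symm

/-- no three neighbours of `w` outside the closed neighbourhood of `v` -/
lemma f2 (hG : G.Connected) (hC : C4F G) {m r : ℕ} {p v w x y z : V} {R : List V}
    (hN : NoLong G (r + 3)) (hr : r ≤ m + 1)
    (hR : Geo G u m p R) (hvp : G.Adj v p) (hv : G.dist u v = m + 1) (hvw : G.Adj v w)
    (hwp : w ≠ p) (hwp' : ¬ G.Adj w p)
    (hwx : G.Adj w x) (hxv : x ≠ v) (hxv' : ¬ G.Adj x v)
    (hwy : G.Adj w y) (hyv : y ≠ v) (hyv' : ¬ G.Adj y v)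
    (hwz : G.Adj w z) (hzv : z ≠ v) (hzv' : ¬ G.Adj z v)
    (hxy : x ≠ y) (hxz : x ≠ z) (hyz : y ≠ z) : False := by
  have he := ext hG hC hR hvp hv hvw hwp hwp'
  have key : ∀ {a b c d : V}, G.Adj w a → G.Adj w b → a ≠ b → c ∈ R → d ∈ R → G.Adj a c →
      G.Adj b d → G.dist u c = G.dist u d → False := by
    intro a b c d ha hb hab hc hd hac hbd hcd
    have := geo_inj hR c hc d hd hcd
    subst this
    exact hC w a c b (he c hc).2 hab ha hac hbd.symm hb.symm
  obtain ⟨c, hc, hxc, h1⟩ := ext2 hG hC hN hr hR hvp hv hvw hwp hwp' hwx hxv hxv'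
  obtain ⟨d, hd, hyd, h2⟩ := ext2 hG hC hN hr hR hvp hv hvw hwp hwp' hwy hyv hyv'
  obtain ⟨e, hee, hze, h3⟩ := ext2 hG hC hN hr hR hvp hv hvw hwp hwp' hwz hzv hzv'
  rcases h1 with h1 | h1 <;> rcases h2 with h2 | h2 <;> rcases h3 with h3 | h3
  · exact key hwx hwy hxy hc hd hxc hyd (by omega)
  · exact key hwx hwy hxy hc hd hxc hyd (by omega)
  · exact key hwx hwz hxz hc hee hxc hze (by omega)
  · exact key hwy hwz hyz hd hee hyd hze (by omega)
  · exact key hwy hwz hyz hd hee hyd hze (by omega)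
  · exact key hwx hwz hxz hc hee hxc hze (by omega)
  · exact key hwx hwy hxy hc hd hxc hyd (by omega)
  · exact key hwx hwy hxy hc hd hxc hyd (by omega)

end Pool.Agent.P8H19.GP
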