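import Pool.Agent.P8H19.GP.Core

set_option autoImplicit false

namespace Pool.Agent.P8H19.GP

open SimpleGraph
open scoped BigOperators Classical

/-- `l(v)`: the independence number of the subgraph induced on the open neighbourhood of `v`. -/
noncomputable def locInd {V : Type*} (G : SimpleGraph V) (v : V) : ℕ :=
  (G.induce (G.neighborSet v)).indepNum

variable {V : Type*} {G : SimpleGraph V}

def Ind (G : SimpleGraph V) (a : V) (I : Finset V) : Prop :=
  (∀ x ∈ I, G.Adj a x) ∧ (∀ x ∈ I, ∀ y ∈ I, x ≠ y → ¬ G.Adj x y)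

lemma exI [Fintype V] (G : SimpleGraph V) (a : V) :
    ∃ I : Finset V, Ind G a I ∧ I.card = locInd G a := by
  obtain ⟨s, hs⟩ := (G.induce (G.neighborSet a)).exists_isNIndepSet_indepNum
  refine ⟨s.map (Function.Embedding.subtype _), ⟨?_, ?_⟩, ?_⟩
  · intro x hx
    obtain ⟨y, _, rfl⟩ := Finset.mem_map.1 hx
    exact y.2
  · intro x hx y hy hxy
    obtain ⟨x', hx', rfl⟩ := Finset.mem_map.1 hx
    obtain ⟨y', hy', rfl⟩ := Finset.mem_map.1 hy
    have := hs.isIndepSet (Finset.mem_coe.2 hx') (Finset.mem_coe.2 hy')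
      (fun h => hxy (by rw [h]))
    exact this
  · rw [Finset.card_map, hs.card_eq]; rfl

noncomputable def out (G : SimpleGraph V) (I : Finset V) (b : V) : Finset V :=
  I.filter (fun x => x ≠ b ∧ ¬ G.Adj x b)

lemma ind_out {a b : V} {I : Finset V} (h : Ind G a I) : Ind G a (out G I b) :=
  ⟨fun x hx => h.1 x (Finset.mem_filter.1 hx).1,
    fun x hx y hy => h.2 x (Finset.mem_filter.1 hx).1 y (Finset.mem_filter.1 hy).1⟩

lemma mem_out {b x : V} {I : Finset V} : x ∈ out G I b ↔ x ∈ I ∧ x ≠ b ∧ ¬ G.Adj x b := by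
  simp [out]

lemma card_out (hC : C4F G) {a b : V} (hab : G.Adj a b) {I : Finset V} (h : Ind G a I) :
    I.card ≤ (out G I b).card + 1 := by
  have h1 : (I \ out G I b).card ≤ 1 := by
    refine Finset.card_le_one.2 ?_
    intro x hx y hy
    by_contra hxy
    rw [Finset.mem_sdiff, mem_out] at hx hy
    have hx2 : x = b ∨ G.Adj x b := by
      by_contra hc; push Not at hc; exact hx.2 ⟨hx.1, hc⟩
    have hy2 : y = b ∨ G.Adj y b := by
      by_contra hc; push Not at hc; exact hy.2 ⟨hy.1, hc⟩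
    have hn := h.2 x hx.1 y hy.1 hxy
    rcases hx2 with rfl | hx2
    · rcases hy2 with rfl | hy2
      · exact hxy rfl
      · exact hn hy2.symm
    · rcases hy2 with rfl | hy2
      · exact hn hx2
      · exact hC a x b y hab.ne hxy (h.1 x hx.1) hx2 hy2.symm (h.1 y hy.1).symm
  have h2 : I.card ≤ (I \ out G I b).card + (out G I b).card := by
    have := Finset.card_sdiff_add_card I (out G I b)
    have h3 : I.card ≤ (I ∪ out G I b).card := Finset.card_le_card Finset.subset_union_left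
    omega
  omega

structure Data (G : SimpleGraph V) (r : ℕ) (v u p : V) (m : ℕ) (R : List V) : Prop where
  geo : Geo G u m p R
  adj : G.Adj v p
  dist : G.dist u v = m + 1
  le : r ≤ m + 1

lemma exData (hG : G.Connected) {r : ℕ} (H : ∀ v, ∃ u, r ≤ G.dist u v) {v w : V}
    (hw : G.Adj v w) : ∃ u p m R, Data G r v u p m R := by
  have : ∃ u, r ≤ G.dist u v ∧ 1 ≤ G.dist u v := by
    obtain ⟨u, hu⟩ := H v
    by_cases h : 1 ≤ G.dist u v
    · exact ⟨u, hu, h⟩
    · refine ⟨w, ?_, ?_⟩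
      · omega
      · rw [SimpleGraph.dist_eq_one_iff_adj.2 hw.symm]
  obtain ⟨u, h1, h2⟩ := this
  obtain ⟨m, hm⟩ : ∃ m, G.dist u v = m + 1 := ⟨G.dist u v - 1, by omega⟩
  obtain ⟨P, hP⟩ := geo_exists hG u _ v hm
  cases hP with
  | succ hR hvp hd => exact ⟨u, _, m, _, hR, hvp, hm, by omega⟩

lemma small_of_ext [Fintype V] (hG : G.Connected) (hC : C4F G) {r : ℕ} (hN : NoLong G (r + 3))
    {v u p : V} {m : ℕ} {R : List V} (D : Data G r v u p m R) {w w' : V} (hvw : G.Adj v w)
    (hwp : w ≠ p) (hwp' : ¬ G.Adj w p) (hvw' : G.Adj v w') (hw'p : w' ≠ p) (hw'p' : ¬ G.Adj w' p)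
    (hne : w' ≠ w) (hna : ¬ G.Adj w' w) : locInd G w ≤ 2 := by
  obtain ⟨I, hI, hc⟩ := exI G w
  have h1 := card_out hC hvw.symm hI
  have h2 : (out G I v).card ≤ 1 := by
    refine Finset.card_le_one.2 ?_
    intro x hx y hy
    rw [mem_out] at hx hy
    exact f4 hG hC hN D.le D.geo D.adj D.dist hvw hwp hwp' hvw' hw'p hw'p' hne hna
      (hI.1 x hx.1) hx.2.1 hx.2.2 (hI.1 y hy.1) hy.2.1 hy.2.2
  omega

lemma le3_of_ext [Fintype V] (hG : G.Connected) (hC : C4F G) {r : ℕ} (hN : NoLong G (r + 3))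
    {v u p : V} {m : ℕ} {R : List V} (D : Data G r v u p m R) {w : V} (hvw : G.Adj v w)
    (hwp : w ≠ p) (hwp' : ¬ G.Adj w p) : locInd G w ≤ 3 := by
  obtain ⟨I, hI, hc⟩ := exI G w
  have h1 := card_out hC hvw.symm hI
  have h2 : (out G I v).card ≤ 2 := by
    by_contra hlt
    push Not at hlt
    obtain ⟨x, hx, y, hy, z, hz, hxy, hxz, hyz⟩ := Finset.two_lt_card.1 hlt
    rw [mem_out] at hx hy hz
    exact f2 hG hC hN D.le D.geo D.adj D.dist hvw hwp hwp'
      (hI.1 x hx.1) hx.2.1 hx.2.2 (hI.1 y hy.1) hy.2.1 hy.2.2 (hI.1 z hz.1) hz.2.1 hz.2.2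
      hxy hxz hyz
  omega

lemma lemM [Fintype V] (hG : G.Connected) (hC : C4F G) {r : ℕ} (hN : NoLong G (r + 3))
    {h u p : V} {m : ℕ} {R : List V} (D : Data G r h u p m R) (h3 : 3 ≤ locInd G h) {w : V}
    (hw : G.Adj h w) (hwp : w ≠ p) (hwp' : ¬ G.Adj w p) : locInd G w ≤ 2 := by
  obtain ⟨I, hI, hc⟩ := exI G h
  have h1 := card_out hC D.adj hI
  have h2 := card_out hC hw (ind_out (b := p) hI)
  have h4 : 0 < (out G (out G I p) w).card := by omega
  obtain ⟨w', hw'⟩ := Finset.card_pos.1 h4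
  rw [mem_out, mem_out] at hw'
  obtain ⟨⟨a1, a2, a3⟩, a4, a5⟩ := hw'
  exact small_of_ext hG hC hN D hw hwp hwp' (hI.1 w' a1) a2 a3 a4 a5

lemma exE [Fintype V] (hG : G.Connected) (hC : C4F G) {r : ℕ} (H : ∀ v, ∃ u, r ≤ G.dist u v)
    (hN : NoLong G (r + 3)) (h : V) (h3 : 3 ≤ locInd G h) :
    ∃ E : Finset V, locInd G h ≤ E.card + 1 ∧ ∃ u p m R, Data G r h u p m R ∧
      ∀ w ∈ E, G.Adj h w ∧ w ≠ p ∧ ¬ G.Adj w p := by
  obtain ⟨I, hI, hc⟩ := exI G h
  have hpos : 0 < I.card := by omega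
  obtain ⟨w0, hw0⟩ := Finset.card_pos.1 hpos
  obtain ⟨u, p, m, R, D⟩ := exData hG H (hI.1 w0 hw0)
  refine ⟨out G I p, ?_, u, p, m, R, D, ?_⟩
  · have := card_out hC D.adj hI
    omega
  · intro w hw
    rw [mem_out] at hw
    exact ⟨hI.1 w hw.1, hw.2⟩

lemma disj [Fintype V] (hG : G.Connected) (hC : C4F G) {r : ℕ} (H : ∀ v, ∃ u, r ≤ G.dist u v)
    (hN : NoLong G (r + 3)) {h h' w : V} (hh : h ≠ h') (h4 : 4 ≤ locInd G h)
    (h4' : 4 ≤ locInd G h') {u p : V} {m : ℕ} {R : List V} (D : Data G r h u p m R)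
    (hw : G.Adj h w) (hwp : w ≠ p) (hwp' : ¬ G.Adj w p) (hw' : G.Adj h' w) : False := by
  obtain ⟨u1, q, m1, S, D1⟩ := exData hG H hw.symm
  have k1 : h = q ∨ G.Adj h q := by
    by_contra hc
    push Not at hc
    have := le3_of_ext hG hC hN D1 hw.symm hc.1 hc.2
    omega
  have k2 : h' = q ∨ G.Adj h' q := by
    by_contra hc
    push Not at hc
    have := le3_of_ext hG hC hN D1 hw'.symm hc.1 hc.2
    omega
  have k3 : G.Adj h h' := by
    rcases k1 with rfl | k1
    · rcases k2 with rfl | k2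
      · exact absurd rfl hh
      · exact k2.symm
    · rcases k2 with rfl | k2
      · exact k1
      · exact absurd (hC w h q h' D1.adj.ne hh hw.symm k1 k2.symm hw') id
  have k4 : h' ≠ p := by
    rintro rfl
    exact hwp' hw'.symm
  have k5 : ¬ G.Adj h' p := fun hc => hC h w h' p hh hwp hw hw'.symm hc D.adj.symm
  have := lemM hG hC hN D (by omega) k3 k4 k5
  omega

theorem main_avg [Fintype V] [Nonempty V] (hG : G.Connected) (hC : C4F G) {r : ℕ}
    (H : ∀ v, ∃ u, r ≤ G.dist u v) (hN : NoLong G (r + 3)) :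
    ∑ v, (locInd G v : ℤ) < 3 * (Fintype.card V : ℤ) := by
  have hE := exE hG hC H hN
  let E : V → Finset V := fun h => if hh : 3 ≤ locInd G h then (hE h hh).choose else ∅
  have hE1 : ∀ h, 3 ≤ locInd G h → locInd G h ≤ (E h).card + 1 ∧ ∃ u p m R, Data G r h u p m R ∧
      ∀ w ∈ E h, G.Adj h w ∧ w ≠ p ∧ ¬ G.Adj w p := by
    intro h hh
    have : E h = (hE h hh).choose := by simp [E, hh]
    rw [this]
    exact (hE h hh).choose_spec
  let Hs : Finset V := Finset.univ.filter (fun v => 4 ≤ locInd G v)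
  let S : Finset V := Finset.univ.filter (fun v => locInd G v ≤ 2)
  have hS : ∀ h, 3 ≤ locInd G h → ∀ w ∈ E h, w ∈ S := by
    intro h hh w hw
    obtain ⟨_, u, p, m, R, D, hD⟩ := hE1 h hh
    obtain ⟨a, b, c⟩ := hD w hw
    simp only [S, Finset.mem_filter, Finset.mem_univ, true_and]
    exact lemM hG hC hN D hh a b c
  have hdisj : ∀ h ∈ Hs, ∀ h' ∈ Hs, h ≠ h' → Disjoint (E h) (E h') := by
    intro h hh h' hh' hne
    simp only [Hs, Finset.mem_filter, Finset.mem_univ, true_and] at hh hh'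
    rw [Finset.disjoint_left]
    intro w hw hw'
    obtain ⟨_, u, p, m, R, D, hD⟩ := hE1 h (by omega)
    obtain ⟨_, u', p', m', R', D', hD'⟩ := hE1 h' (by omega)
    obtain ⟨a, b, c⟩ := hD w hw
    exact disj hG hC H hN hne hh hh' D a b c (hD' w hw').1
  have hcard : ∑ h ∈ Hs, (E h).card ≤ S.card := by
    rw [← Finset.card_biUnion hdisj]
    refine Finset.card_le_card ?_
    intro w hw
    obtain ⟨h, hh, hw⟩ := Finset.mem_biUnion.1 hw
    simp only [Hs, Finset.mem_filter, Finset.mem_univ, true_and] at hh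
    exact hS h (by omega) w hw
  have hSpos : 1 ≤ S.card := by
    by_contra hc
    have h0 : S = ∅ := Finset.card_eq_zero.1 (by omega)
    obtain ⟨v⟩ := (inferInstance : Nonempty V)
    have hv : 3 ≤ locInd G v := by
      by_contra hlt
      have : v ∈ S := by
        simp only [S, Finset.mem_filter, Finset.mem_univ, true_and]; omega
      rw [h0] at this
      simp at this
    have h1 := (hE1 v hv).1
    have h2 : 0 < (E v).card := by omega
    obtain ⟨w, hw⟩ := Finset.card_pos.1 h2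
    have := hS v hv w hw
    rw [h0] at this
    simp at this
  have hsum : ∑ v, ((locInd G v : ℤ) - 3) ≤
      ∑ h ∈ Hs, ((locInd G h : ℤ) - 3) - (S.card : ℤ) := by
    have e1 : ∑ h ∈ Hs, ((locInd G h : ℤ) - 3) =
        ∑ v, (if 4 ≤ locInd G v then ((locInd G v : ℤ) - 3) else 0) := by
      simp only [Hs, Finset.sum_filter]
    have e2 : (S.card : ℤ) = ∑ v, (if locInd G v ≤ 2 then (1 : ℤ) else 0) := by
      simp only [S, Finset.card_filter]
      push_cast
      rfl
    rw [e1, e2, ← Finset.sum_sub_distrib]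
    refine Finset.sum_le_sum ?_
    intro v _
    split_ifs <;> omega
  have hH : ∑ h ∈ Hs, ((locInd G h : ℤ) - 3) ≤ ((∑ h ∈ Hs, (E h).card : ℕ) : ℤ) - 2 * Hs.card := by
    push_cast
    have : ∑ h ∈ Hs, ((E h).card : ℤ) - 2 * Hs.card = ∑ h ∈ Hs, (((E h).card : ℤ) - 2) := by
      rw [Finset.sum_sub_distrib, Finset.sum_const]
      simp [mul_comm]
    rw [this]
    refine Finset.sum_le_sum ?_
    intro h hh
    simp only [Hs, Finset.mem_filter, Finset.mem_univ, true_and] at hh
    have := (hE1 h (by omega)).1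
    omega
  have hall : ∑ v, ((locInd G v : ℤ) - 3) = ∑ v, (locInd G v : ℤ) - 3 * (Fintype.card V : ℤ) := by
    rw [Finset.sum_sub_distrib]
    simp [mul_comm]
  have hHs0 : Hs.card = 0 → ∑ h ∈ Hs, ((locInd G h : ℤ) - 3) = 0 := by
    intro h
    rw [Finset.card_eq_zero.1 h]; simp
  have : ∑ v, ((locInd G v : ℤ) - 3) < 0 := by
    rcases Nat.eq_zero_or_pos Hs.card with h0 | h0
    · have := hHs0 h0
      omega
    · omega
  omega

theorem main_two [Fintype V] (hG : G.Connected) (hC : C4F G) {r : ℕ}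
    (H : ∀ v, ∃ u, r ≤ G.dist u v) (hN : NoLong G (r + 2)) (v : V) : locInd G v ≤ 1 := by
  by_contra hlt
  push Not at hlt
  obtain ⟨I, hI, hc⟩ := exI G v
  have hpos : 0 < I.card := by omega
  obtain ⟨w0, hw0⟩ := Finset.card_pos.1 hpos
  obtain ⟨u, p, m, R, D⟩ := exData hG H (hI.1 w0 hw0)
  have h1 := card_out hC D.adj hI
  have h2 : 0 < (out G I p).card := by omega
  obtain ⟨w, hw⟩ := Finset.card_pos.1 h2
  rw [mem_out] at hw
  obtain ⟨h3, h4⟩ := ip2 hG hC D.geo D.adj D.dist (hI.1 w hw.1) hw.2.1 hw.2.2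
  have := hN _ h3
  have := D.le
  omega

theorem main_one [Nonempty V] (hG : G.Connected) {r : ℕ}
    (H : ∀ v, ∃ u, r ≤ G.dist u v) : ∃ L : List V, IP G L ∧ r + 1 ≤ L.length := by
  obtain ⟨v⟩ := (inferInstance : Nonempty V)
  obtain ⟨u, hu⟩ := H v
  obtain ⟨P, hP⟩ := geo_exists hG u _ v rfl
  exact ⟨P, geo_IP hG hP, by rw [geo_len hP]; omega⟩

lemma IP_get {L : List V} (h : IP G L) : ∀ (i j : ℕ) (hi : i < L.length) (hj : j < L.length),
    i < j → ((G.Adj L[i] L[j] ↔ i + 1 = j) ∧ L[i] ≠ L[j]) := by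
  induction L with
  | nil => intro i j hi; simp at hi
  | cons a L ih =>
    cases L with
    | nil => intro i j hi hj hij; simp at hi hj; omega
    | cons b l =>
      obtain ⟨h1, h2, h3⟩ := h
      intro i j hi hj hij
      cases i with
      | zero =>
        cases j with
        | zero => omega
        | succ j =>
          cases j with
          | zero => simp [h1, h1.ne]
          | succ j =>
            have hm : l[j]'(by simp at hj; omega) ∈ l := List.getElem_mem _
            have := h2 _ hm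
            simp only [List.getElem_cons_zero, List.getElem_cons_succ]
            exact ⟨⟨fun h => absurd h this.1, fun h => by omega⟩, this.2⟩
      | succ i =>
        cases j with
        | zero => omega
        | succ j =>
          have := ih h3 i j (by simp at hi ⊢; omega) (by simp at hj ⊢; omega) (by omega)
          simp only [List.getElem_cons_succ]
          refine ⟨⟨fun h => by have := this.1.1 h; omega, fun h => this.1.2 (by omega)⟩, this.2⟩

lemma IP_emb {L : List V} (h : IP G L) : Nonempty (SimpleGraph.pathGraph L.length ↪g G) := by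
  have hg := IP_get h
  refine ⟨⟨⟨fun i => L[i.1]'i.2, ?_⟩, ?_⟩⟩
  · intro i j hij
    by_contra hne
    rcases lt_or_gt_of_ne (fun h => hne (Fin.ext h) : i.1 ≠ j.1) with hlt | hlt
    · exact (hg i.1 j.1 i.2 j.2 hlt).2 hij
    · exact (hg j.1 i.1 j.2 i.2 hlt).2 hij.symm
  · intro i j
    simp only [SimpleGraph.pathGraph_adj, Function.Embedding.coeFn_mk]
    rcases lt_trichotomy i.1 j.1 with hlt | heq | hlt
    · rw [(hg i.1 j.1 i.2 j.2 hlt).1]
      constructor
      · intro h; exact Or.inl h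
      · rintro (h | h)
        · exact h
        · omega
    · have : i = j := Fin.ext heq
      subst this
      constructor
      · intro h; exact absurd rfl h.ne
      · rintro (h | h) <;> omega
    · rw [SimpleGraph.adj_comm, (hg j.1 i.1 j.2 i.2 hlt).1]
      constructor
      · intro h; exact Or.inr h
      · rintro (h | h)
        · omega
        · exact h

end Pool.Agent.P8H19.GP
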